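import Pool.Agent.Helper31.RG.Goals
import Pool.Agent.Helper85.BG.LSG

set_option autoImplicit false

/-!
# Range concatenation grammars: the universal function is a linear-space function (packet LSG)
-/

namespace Pool.Agent.Helper32.RG.PkLSG

open Pool.Agent.Helper65.LinSpace Pool.Agent.Helper78 Pool.Agent.Helper78.Mpc
  Pool.Agent.Helper78.Xor Finset Pool.Agent.Helper31.RG
open Pool.Agent.Helper95.BG (lt01_lt_two)

variable {α : Type} [Ctx α]

theorem LS.kap {n : α → ℕ} (hn : LS n) : LS (fun a => kap (n a)) := by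
  unfold Helper31.RG.kap
  exact LS.sqrt (by fun_prop)

theorem LS.nb {n : α → ℕ} (hn : LS n) : LS (fun a => nb (n a)) := by
  unfold Helper31.RG.nb
  fun_prop

theorem bS_le (k n : ℕ) : bS k n ≤ nb n + 1 := by
  unfold Helper31.RG.bS
  rcases Nat.eq_zero_or_pos (Helper31.RG.nb n) with h | h
  · rw [h]
    simp
  · refine le_trans (Nat.pow_le_pow_right (by norm_num) (Nat.div_le_self _ _)) ?_
    exact le_trans (Nat.pow_log_le_self 2 h.ne') (Nat.le_succ _)

theorem LS.bS {k n : α → ℕ} (hk : LS k) (hn : LS n) : LS (fun a => bS (k a) (n a)) := by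
  have h := LS.nb hn
  unfold Helper31.RG.bS
  exact LS.pow_of_le (f := fun _ => 2) (C := fun a => Helper31.RG.nb (n a) + 1) (by fun_prop)
    (by fun_prop) (by fun_prop) fun a => bS_le _ _

theorem LS.mS {k n : α → ℕ} (hk : LS k) (hn : LS n) : LS (fun a => mS (k a) (n a)) := by
  unfold Helper31.RG.mS
  exact LS.mul (LS.bS hk hn) (LS.nb hn)

theorem LS.lenL {nT Bg MC cap x z : α → ℕ} (hnT : LS nT) (hBg : LS Bg) (hMC : LS MC)
    (hcap : LS cap) (hx : LS x) (hz : LS z) :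
    LS (fun a => Helper95.BG.lenL (nT a) (Bg a) (MC a) (LW (Nat.log 2 (x a)))
      (2 ^ (2 * ll (Nat.log 2 (x a)))) (cap a) (x a) (z a)) := by
  unfold Helper95.BG.lenL
  refine LS.sum_le (N := fun a => cap a) (B := fun _ => 1)
    (f := fun a i => lt01 0 (∑ t ∈ range (nT a), Helper95.BG.isL (Bg a) (MC a)
      (LW (Nat.log 2 (x a))) (2 ^ (2 * ll (Nat.log 2 (x a)))) (x a) (z a) i t))
    ?_ hcap (by fun_prop) ?_
  · refine LS.lt01 (LS.const 0) ?_
    refine LS.sum_le (α := α × ℕ) (N := fun w => nT w.1) (B := fun _ => 1)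
      (f := fun w t => Helper95.BG.isL (Bg w.1) (MC w.1)
      (LW (Nat.log 2 (x w.1))) (2 ^ (2 * ll (Nat.log 2 (x w.1)))) (x w.1) (z w.1) w.2 t)
      ?_ (by fun_prop) (by fun_prop) ?_
    · exact Helper85.BG.PkLSG.LS.isL (α := (α × ℕ) × ℕ) (Bg := fun w => Bg w.1.1)
        (MC := fun w => MC w.1.1)
        (x := fun w => x w.1.1) (x' := fun w => x w.1.1) (z := fun w => z w.1.1)
        (i := fun w => w.1.2) (t := fun w => w.2)
        (by fun_prop) (by fun_prop) (by fun_prop) (by fun_prop) (by fun_prop) (by fun_prop)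
        (by fun_prop)
    · intro w t _
      exact Nat.lt_succ_iff.1 (Helper85.BG.PkLSG.isL_lt _ _ _ _ _ _ _ _)
  · intro a i _
    exact Nat.lt_succ_iff.1 (lt01_lt_two _ _)

theorem LS.mL {nT Bg MC cap x z : α → ℕ} (hnT : LS nT) (hBg : LS Bg) (hMC : LS MC)
    (hcap : LS cap) (hx : LS x) (hz : LS z) :
    LS (fun a => mL (nT a) (Bg a) (MC a) (cap a) (x a) (z a)) := by
  unfold Helper31.RG.mL
  exact LS.min (LS.add (by fun_prop) (LS.lenL hnT hBg hMC hcap hx hz)) hcap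

theorem LS.valR (lse : G_LSE) (par : G_PAR) {e x z : α → ℕ} (he : LS e) (hx : LS x) (hz : LS z) :
    LS (fun a => valR (e a) (x a) (z a)) := by
  have hcp : ∀ i, LS (fun a => Helper95.BG.cp i (e a)) := fun i =>
    Helper85.BG.PkLSG.LS.cp i he
  have c0 := hcp 0
  have c1 := hcp 1
  have c2 := hcp 2
  have c3 := hcp 3
  have c4 := hcp 4
  have c5 := hcp 5
  have c6 := hcp 6
  have c7 := hcp 7
  have c9 := hcp 9
  have c10 := hcp 10
  have hn : LS (fun a => Nat.log 2 (x a)) := by fun_prop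
  have hl : LS (fun a => ll (Nat.log 2 (x a))) := by fun_prop
  have hκ : LS (fun a => Helper31.RG.kap (Nat.log 2 (x a))) := LS.kap hn
  have hq : LS (fun a => min (Helper95.BG.cp 0 (e a)) (Helper31.RG.kap (Nat.log 2 (x a)))) :=
    LS.min c0 hκ
  have hk : LS (fun a => min (Helper95.BG.cp 9 (e a)) (Helper31.RG.kap (Nat.log 2 (x a)))) :=
    LS.min c9 hκ
  have hr : LS (fun a => min (Helper95.BG.cp 10 (e a)) (Helper31.RG.kap (Nat.log 2 (x a)))) :=
    LS.min c10 hκ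
  have hC : LS (fun a => CX (x a)) := by fun_prop
  have hm := LS.mL c3 c4 c5 (LS.mS hk hn) hx hz
  have hp := fun a => par (x a)
    (min (Helper95.BG.cp 0 (e a)) (Helper31.RG.kap (Nat.log 2 (x a))))
    (min (Helper95.BG.cp 9 (e a)) (Helper31.RG.kap (Nat.log 2 (x a))))
    (min (Helper95.BG.cp 10 (e a)) (Helper31.RG.kap (Nat.log 2 (x a))))
    (Helper31.RG.mL (Helper95.BG.cp 3 (e a)) (Helper95.BG.cp 4 (e a)) (Helper95.BG.cp 5 (e a))
      (Helper31.RG.mS (min (Helper95.BG.cp 9 (e a)) (Helper31.RG.kap (Nat.log 2 (x a))))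
        (Nat.log 2 (x a))) (x a) (z a))
    (min_le_right _ _) (min_le_right _ _) (min_le_right _ _) (min_le_right _ _)
  have hQ : LS (fun a => 2 ^ min (Helper95.BG.cp 0 (e a))
      (Helper31.RG.kap (Nat.log 2 (x a)))) :=
    LS.pow_of_le (f := fun _ => 2) (by fun_prop) hq hC fun a => (hp a).q1
  unfold Helper31.RG.valR
  exact lse α _ _ _ _ _ _ _ _ _ _ hq hk hr (LS.bS hk hn) hl hm c1 c2 hC
    (Helper85.BG.PkLSG.LS.ltL
      (q := fun a => min (Helper95.BG.cp 0 (e a)) (Helper31.RG.kap (Nat.log 2 (x a))))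
      hQ c3 c4 c5 c6 c7 hx hz)
    (fun a i => Helper85.BG.PkLSG.ltL_lt _ _ _ _ _ _ _ _ _ _ _) hp

/-- The packet LSG. -/
theorem thm (lse : G_LSE) (par : G_PAR) : G_LSG := by
  intro c
  unfold UR
  refine LS.sum_le (N := fun z : ℕ × ℕ × ℕ => 2 ^ (c * Nat.log 2 z.2.2 + 1)) (B := fun _ => 1)
    (f := fun z y => lt01 0 y * dig 2 (Helper95.BG.cp 8 z.1)
      (Helper31.RG.valR z.1 z.2.2 (Avg.catN z.2.1 y))) ?_ ?_ (by fun_prop) ?_
  · refine LS.mul (by fun_prop) ?_
    refine LS.dig (LS.const 2) (Helper85.BG.PkLSG.LS.cp 8 (by fun_prop)) ?_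
    exact LS.valR lse par (e := fun w : (ℕ × ℕ × ℕ) × ℕ => w.1.1) (x := fun w => w.1.2.2)
      (z := fun w => Avg.catN w.1.2.1 w.2) (by fun_prop) (by fun_prop)
      (Avg.LS.catN (by fun_prop) (by fun_prop))
  · refine LS.pow_of_le (f := fun _ => 2) (g := fun z : ℕ × ℕ × ℕ => c * Nat.log 2 z.2.2 + 1)
      (C := fun z : ℕ × ℕ × ℕ => (z.2.2 + 2) ^ (2 * (c + 1))) (by fun_prop) (by fun_prop)
      (by fun_prop) fun a => ?_
    refine le_trans ?_ (two_pow_log_le a.2.2 (c + 1))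
    refine Nat.pow_le_pow_right (by norm_num) ?_
    ring_nf
    omega
  · intro z y _
    calc _ ≤ 1 * 1 := Nat.mul_le_mul (Nat.lt_succ_iff.1 (lt01_lt_two _ _))
          (Nat.lt_succ_iff.1 (dig_lt (by norm_num) _ _))
      _ = 1 := rfl

end Pool.Agent.Helper32.RG.PkLSG
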